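import Mathlib

/-!
Counterexample data for MP_4bee3f_an.  In complex notation the map is
`w = conj z + z ^ 2 * log |z| ^ 2`, which solves the inhomogeneous Cauchy-Riemann system
`dbar w = 1 + z ^ 2 / conj z` with Lipschitz right side and Lipschitz Jacobian close to `-1`,
while its first derivatives behave like `z * log |z|` and are not Lipschitz at the origin.
-/

set_option autoImplicit false

open Set Metric Real

namespace Pool.Agent.Lib.MP_4bee3f_an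

abbrev E : Type := EuclideanSpace ℝ (Fin 2)

/-- Lipschitz on the open unit ball. -/
def LB (g : E → ℝ) : Prop := ∃ K : NNReal, LipschitzOnWith K g (ball 0 1)

lemma LB.add {f g : E → ℝ} (hf : LB f) (hg : LB g) : LB (fun p => f p + g p) := by
  obtain ⟨K, hK⟩ := hf
  obtain ⟨L, hL⟩ := hg
  exact ⟨K + L, hK.add hL⟩

lemma LB.const_mul {f : E → ℝ} (a : ℝ) (hf : LB f) : LB (fun p => a * f p) := by
  obtain ⟨K, hK⟩ := hf
  refine ⟨‖a‖₊ * K, ?_⟩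
  have h : LipschitzWith ‖a‖₊ (fun t : ℝ => a * t) := by
    refine LipschitzWith.of_dist_le_mul fun s t => ?_
    rw [Real.dist_eq, Real.dist_eq, ← mul_sub, abs_mul]
    simp
  exact h.comp_lipschitzOnWith hK

lemma LB.of_contDiff {f : E → ℝ} (hf : ContDiff ℝ 1 f) : LB f := by
  obtain ⟨K, hK⟩ := LocallyLipschitzOn.exists_lipschitzOnWith_of_compact
    (isCompact_closedBall (0 : E) 1) (hf.locallyLipschitz.locallyLipschitzOn)
  exact ⟨K, hK.mono ball_subset_closedBall⟩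

lemma LB.congr {f g : E → ℝ} (hf : LB f) (h : ∀ p, g p = f p) : LB g := by
  have : g = f := funext h
  rw [this]; exact hf

lemma lip_of_deriv {f f' : ℝ → ℝ} (C : ℝ) (_hC : 0 ≤ C) (hc : ContinuousOn f (Icc 0 1))
    (hd : ∀ t ∈ Ioo (0 : ℝ) 1, HasDerivAt f (f' t) t) (hb : ∀ t ∈ Ioo (0 : ℝ) 1, |f' t| ≤ C) :
    ∀ s ∈ Icc (0 : ℝ) 1, ∀ t ∈ Icc (0 : ℝ) 1, |f s - f t| ≤ C * |s - t| := by
  have hdiff : DifferentiableOn ℝ f (interior (Icc (0 : ℝ) 1)) := by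
    rw [interior_Icc]
    exact fun t ht => (hd t ht).differentiableAt.differentiableWithinAt
  have h1 : ∀ x ∈ interior (Icc (0 : ℝ) 1), deriv f x ≤ C := by
    rw [interior_Icc]
    intro t ht
    rw [(hd t ht).deriv]
    exact (abs_le.1 (hb t ht)).2
  have h2 : ∀ x ∈ interior (Icc (0 : ℝ) 1), -C ≤ deriv f x := by
    rw [interior_Icc]
    intro t ht
    rw [(hd t ht).deriv]
    exact (abs_le.1 (hb t ht)).1
  have key : ∀ s ∈ Icc (0 : ℝ) 1, ∀ t ∈ Icc (0 : ℝ) 1, s ≤ t → |f s - f t| ≤ C * |s - t| := by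
    intro s hs t ht hst
    have a1 := (convex_Icc (0 : ℝ) 1).image_sub_le_mul_sub_of_deriv_le hc hdiff h1 s hs t ht hst
    have a2 := (convex_Icc (0 : ℝ) 1).mul_sub_le_image_sub_of_le_deriv hc hdiff h2 s hs t ht hst
    rw [abs_sub_comm s t, abs_of_nonneg (sub_nonneg.2 hst), abs_le]
    constructor <;> linarith
  intro s hs t ht
  rcases le_total s t with h | h
  · exact key s hs t ht h
  · rw [abs_sub_comm, abs_sub_comm s t]; exact key t ht s hs h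

lemma norm_unit_le (p : E) : ‖‖p‖⁻¹ • p‖ ≤ 1 := by
  rw [norm_smul, norm_inv, norm_norm]
  by_cases h : ‖p‖ = 0
  · simp [h]
  · rw [inv_mul_cancel₀ h]

lemma smul_unit (p : E) : ‖p‖ • (‖p‖⁻¹ • p) = p := by
  by_cases h : ‖p‖ = 0
  · rw [norm_eq_zero] at h; simp [h]
  · rw [smul_smul, mul_inv_cancel₀ h, one_smul]

lemma unit_diff (p q : E) : ‖q‖ * ‖‖p‖⁻¹ • p - ‖q‖⁻¹ • q‖ ≤ 2 * ‖p - q‖ := by
  have h1 : ‖q‖ * ‖‖p‖⁻¹ • p - ‖q‖⁻¹ • q‖ = ‖‖q‖ • (‖p‖⁻¹ • p - ‖q‖⁻¹ • q)‖ := by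
    rw [norm_smul, norm_norm]
  have h2 : ‖q‖ • (‖p‖⁻¹ • p - ‖q‖⁻¹ • q) = (‖q‖ - ‖p‖) • (‖p‖⁻¹ • p) + (p - q) := by
    rw [smul_sub, sub_smul, smul_unit, smul_unit]; abel
  rw [h1, h2]
  have h3 : ‖(‖q‖ - ‖p‖) • (‖p‖⁻¹ • p)‖ ≤ ‖p - q‖ := by
    rw [norm_smul]
    have : ‖‖q‖ - ‖p‖‖ ≤ ‖p - q‖ := by
      rw [Real.norm_eq_abs, norm_sub_rev]; exact abs_norm_sub_norm_le q p
    calc ‖‖q‖ - ‖p‖‖ * ‖‖p‖⁻¹ • p‖ ≤ ‖p - q‖ * 1 :=
          mul_le_mul this (norm_unit_le p) (norm_nonneg _) (norm_nonneg _)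
      _ = ‖p - q‖ := mul_one _
  calc _ ≤ ‖(‖q‖ - ‖p‖) • (‖p‖⁻¹ • p)‖ + ‖p - q‖ := norm_add_le _ _
    _ ≤ 2 * ‖p - q‖ := by linarith

lemma LB.radial {ψ : ℝ → ℝ} {G : E → ℝ} (C : ℝ) (hC : 0 ≤ C) (h0 : ψ 0 = 0)
    (hψ : ∀ s ∈ Icc (0 : ℝ) 1, ∀ t ∈ Icc (0 : ℝ) 1, |ψ s - ψ t| ≤ C * |s - t|)
    (hG : ContDiff ℝ 1 G) : LB (fun p => ψ ‖p‖ * G (‖p‖⁻¹ • p)) := by
  obtain ⟨K, hK⟩ := LocallyLipschitzOn.exists_lipschitzOnWith_of_compact
    (isCompact_closedBall (0 : E) 1) (hG.locallyLipschitz.locallyLipschitzOn)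
  obtain ⟨M, hM⟩ := (isCompact_closedBall (0 : E) 1).exists_bound_of_continuousOn
    hG.continuous.continuousOn
  have hM0 : 0 ≤ M := le_trans (norm_nonneg _) (hM 0 (mem_closedBall_self zero_le_one))
  refine ⟨⟨C * M + C * K * 2, by positivity⟩, LipschitzOnWith.of_dist_le_mul fun p hp q hq => ?_⟩
  have hp1 : ‖p‖ ∈ Icc (0 : ℝ) 1 := ⟨norm_nonneg _, (mem_ball_zero_iff.1 hp).le⟩
  have hq1 : ‖q‖ ∈ Icc (0 : ℝ) 1 := ⟨norm_nonneg _, (mem_ball_zero_iff.1 hq).le⟩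
  have hpu : ‖p‖⁻¹ • p ∈ closedBall (0 : E) 1 := mem_closedBall_zero_iff.2 (norm_unit_le p)
  have hqu : ‖q‖⁻¹ • q ∈ closedBall (0 : E) 1 := mem_closedBall_zero_iff.2 (norm_unit_le q)
  have e1 : |ψ ‖p‖ - ψ ‖q‖| ≤ C * ‖p - q‖ :=
    (hψ _ hp1 _ hq1).trans (mul_le_mul_of_nonneg_left (abs_norm_sub_norm_le p q) hC)
  have e2 : |ψ ‖q‖| ≤ C * ‖q‖ := by
    have := hψ _ hq1 0 ⟨le_rfl, zero_le_one⟩
    simpa [h0] using this
  have e3 : |G (‖p‖⁻¹ • p)| ≤ M := hM _ hpu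
  have e4 : |G (‖p‖⁻¹ • p) - G (‖q‖⁻¹ • q)| ≤ K * ‖‖p‖⁻¹ • p - ‖q‖⁻¹ • q‖ := by
    have := hK.dist_le_mul _ hpu _ hqu
    rwa [Real.dist_eq, dist_eq_norm] at this
  have e5 := unit_diff p q
  rw [Real.dist_eq, dist_eq_norm]
  have e6 : ψ ‖p‖ * G (‖p‖⁻¹ • p) - ψ ‖q‖ * G (‖q‖⁻¹ • q) =
      (ψ ‖p‖ - ψ ‖q‖) * G (‖p‖⁻¹ • p) + ψ ‖q‖ * (G (‖p‖⁻¹ • p) - G (‖q‖⁻¹ • q)) := by ring
  rw [e6]
  have e7 : |(ψ ‖p‖ - ψ ‖q‖) * G (‖p‖⁻¹ • p)| ≤ C * ‖p - q‖ * M := by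
    rw [abs_mul]; exact mul_le_mul e1 e3 (abs_nonneg _) (by positivity)
  have e8 : |ψ ‖q‖ * (G (‖p‖⁻¹ • p) - G (‖q‖⁻¹ • q))| ≤ C * K * (2 * ‖p - q‖) := by
    rw [abs_mul]
    calc _ ≤ C * ‖q‖ * (K * ‖‖p‖⁻¹ • p - ‖q‖⁻¹ • q‖) :=
          mul_le_mul e2 e4 (abs_nonneg _) (by positivity)
      _ = C * K * (‖q‖ * ‖‖p‖⁻¹ • p - ‖q‖⁻¹ • q‖) := by ring
      _ ≤ C * K * (2 * ‖p - q‖) := mul_le_mul_of_nonneg_left e5 (by positivity)
  calc _ ≤ |(ψ ‖p‖ - ψ ‖q‖) * G (‖p‖⁻¹ • p)| + |ψ ‖q‖ * (G (‖p‖⁻¹ • p) - G (‖q‖⁻¹ • q))| :=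
        abs_add_le _ _
    _ ≤ C * ‖p - q‖ * M + C * K * (2 * ‖p - q‖) := add_le_add e7 e8
    _ = (C * M + C * K * 2) * ‖p - q‖ := by ring

lemma psi1_lip : ∀ s ∈ Icc (0 : ℝ) 1, ∀ t ∈ Icc (0 : ℝ) 1,
    |(fun x : ℝ => x) s - (fun x : ℝ => x) t| ≤ 1 * |s - t| := by
  intro s _ t _; simp

lemma abs_mul_log_le {t : ℝ} (ht : t ∈ Ioo (0 : ℝ) 1) : |t * log t| ≤ 1 := by
  rw [mul_comm]; exact (abs_log_mul_self_lt t ht.1 ht.2.le).le

lemma mul_log_sq_le {t : ℝ} (ht : t ∈ Ioo (0 : ℝ) 1) : |t * log t ^ 2| ≤ 4 := by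
  have h1 : 0 < √t := Real.sqrt_pos.2 ht.1
  have h2 : √t < 1 := by rw [Real.sqrt_lt' one_pos]; simpa using ht.2
  have h3 := abs_mul_log_le ⟨h1, h2⟩
  have h4 : log t = 2 * log √t := by rw [Real.log_sqrt ht.1.le]; ring
  have h5 : t * log t ^ 2 = 4 * (√t * log √t) ^ 2 := by
    rw [h4]; nth_rewrite 1 [← Real.sq_sqrt ht.1.le]; ring
  rw [h5, abs_mul, abs_pow]
  have : |√t * log √t| ^ 2 ≤ 1 := pow_le_one₀ (abs_nonneg _) h3
  rw [abs_of_pos (by norm_num : (0 : ℝ) < 4)]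
  linarith

lemma psi2_lip : ∀ s ∈ Icc (0 : ℝ) 1, ∀ t ∈ Icc (0 : ℝ) 1,
    |(fun x : ℝ => x * (x * log x)) s - (fun x : ℝ => x * (x * log x)) t| ≤ 3 * |s - t| := by
  refine lip_of_deriv (f' := fun t => 2 * (t * log t) + t) 3 (by norm_num)
    (continuous_id.mul continuous_mul_log).continuousOn ?_ ?_
  · intro t ht
    have h := (hasDerivAt_id' t).mul (hasDerivAt_mul_log ht.1.ne')
    exact h.congr_deriv (by ring)
  · intro t ht
    have h1 := abs_le.1 (abs_mul_log_le ht)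
    rw [abs_le]
    constructor <;> linarith [ht.1, ht.2, h1.1, h1.2]

lemma psi3_lip : ∀ s ∈ Icc (0 : ℝ) 1, ∀ t ∈ Icc (0 : ℝ) 1,
    |(fun x : ℝ => (x * log x) ^ 2) s - (fun x : ℝ => (x * log x) ^ 2) t| ≤ 10 * |s - t| := by
  refine lip_of_deriv (f' := fun t => 2 * (t * log t ^ 2) + 2 * (t * log t)) 10 (by norm_num)
    (continuous_mul_log.pow 2).continuousOn ?_ ?_
  · intro t ht
    have h := (hasDerivAt_mul_log ht.1.ne').pow 2
    exact h.congr_deriv (by simp; ring)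
  · intro t ht
    have h1 := abs_le.1 (abs_mul_log_le ht)
    have h2 := abs_le.1 (mul_log_sq_le ht)
    rw [abs_le]
    constructor <;> linarith [h1.1, h1.2, h2.1, h2.2]

/-- the squared norm in coordinates -/
noncomputable def N (p : E) : ℝ := p 0 ^ 2 + p 1 ^ 2

lemma N_eq (p : E) : N p = ‖p‖ ^ 2 := by
  rw [EuclideanSpace.norm_sq_eq, Fin.sum_univ_two]; simp [N]

lemma log_N (p : E) : log (N p) = 2 * log ‖p‖ := by
  rw [N_eq, Real.log_pow]; norm_num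

noncomputable def u0 (p : E) : ℝ := p 0 + (p 0 ^ 2 - p 1 ^ 2) * log (N p)
noncomputable def u1 (p : E) : ℝ := -p 1 + 2 * p 0 * p 1 * log (N p)
noncomputable def d0 (p : E) : ℝ := (p 0 ^ 3 - 3 * p 0 * p 1 ^ 2) / N p
noncomputable def d1 (p : E) : ℝ := (3 * p 0 ^ 2 * p 1 - p 1 ^ 3) / N p
noncomputable def JJ (p : E) : ℝ := 4 * (N p * log (N p) ^ 2) + 4 * (N p * log (N p)) - 1 - 2 * d0 p

lemma LB_d0 : LB d0 := by
  refine (LB.radial (ψ := fun x => x) (G := fun v => v 0 ^ 3 - 3 * v 0 * v 1 ^ 2) 1 zero_le_one rfl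
    psi1_lip (by fun_prop)).congr fun p => ?_
  by_cases h : ‖p‖ = 0
  · rw [norm_eq_zero] at h; simp [h, d0]
  · simp only [d0, N_eq, PiLp.smul_apply, smul_eq_mul]; field_simp

lemma LB_d1 : LB d1 := by
  refine (LB.radial (ψ := fun x => x) (G := fun v => 3 * v 0 ^ 2 * v 1 - v 1 ^ 3) 1 zero_le_one rfl
    psi1_lip (by fun_prop)).congr fun p => ?_
  by_cases h : ‖p‖ = 0
  · rw [norm_eq_zero] at h; simp [h, d1]
  · simp only [d1, N_eq, PiLp.smul_apply, smul_eq_mul]; field_simp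

lemma LB_u0 : LB u0 := by
  refine ((LB.of_contDiff (f := fun p => p 0) (by fun_prop)).add
    (LB.radial (ψ := fun x => x * (x * log x)) (G := fun v => 2 * (v 0 ^ 2 - v 1 ^ 2)) 3
      (by norm_num) (by simp) psi2_lip (by fun_prop))).congr fun p => ?_
  by_cases h : ‖p‖ = 0
  · rw [norm_eq_zero] at h; simp [h, u0]
  · simp only [u0, log_N, PiLp.smul_apply, smul_eq_mul]; field_simp

lemma LB_u1 : LB u1 := by
  refine ((LB.of_contDiff (f := fun p => -p 1) (by fun_prop)).add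
    (LB.radial (ψ := fun x => x * (x * log x)) (G := fun v => 4 * (v 0 * v 1)) 3
      (by norm_num) (by simp) psi2_lip (by fun_prop))).congr fun p => ?_
  by_cases h : ‖p‖ = 0
  · rw [norm_eq_zero] at h; simp [h, u1]
  · simp only [u1, log_N, PiLp.smul_apply, smul_eq_mul]; field_simp; ring

lemma LB_JJ : LB JJ := by
  have h1 := LB.radial (ψ := fun x => (x * log x) ^ 2) (G := fun _ => 16) 10
      (by norm_num) (by simp) psi3_lip (by fun_prop)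
  have h2 := LB.radial (ψ := fun x => x * (x * log x)) (G := fun _ => 8) 3
      (by norm_num) (by simp) psi2_lip (by fun_prop)
  have h3 := LB.of_contDiff (f := fun _ => (-1 : ℝ)) (by fun_prop)
  refine (((h1.add h2).add h3).add (LB_d0.const_mul (-2))).congr fun p => ?_
  simp only [JJ, log_N]
  rw [N_eq]; ring

lemma LB_const (a : ℝ) : LB (fun _ => a) := LB.of_contDiff (by fun_prop)

lemma N_pos {p : E} (hp : p ≠ 0) : 0 < N p := by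
  rw [N_eq]; positivity

lemma hasFDerivAt_coord (i : Fin 2) (p : E) :
    HasFDerivAt (fun q : E => q i) (EuclideanSpace.proj i : E →L[ℝ] ℝ) p :=
  (EuclideanSpace.proj i : E →L[ℝ] ℝ).hasFDerivAt

lemma hasFDerivAt_logN {p : E} (hp : p ≠ 0) :
    HasFDerivAt (fun q : E => log (N q))
      ((N p)⁻¹ • ((2 * p 0) • (EuclideanSpace.proj 0 : E →L[ℝ] ℝ)
        + (2 * p 1) • (EuclideanSpace.proj 1 : E →L[ℝ] ℝ))) p := by
  have h := (((hasFDerivAt_coord 0 p).pow 2).add ((hasFDerivAt_coord 1 p).pow 2)).log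
    (N_pos hp).ne'
  exact h.congr_fderiv (by simp [N])

lemma fderiv_u0 {p : E} (hp : p ≠ 0) (v : E) :
    fderiv ℝ u0 p v = v 0 + (2 * p 0 * v 0 - 2 * p 1 * v 1) * log (N p)
      + (p 0 ^ 2 - p 1 ^ 2) * ((2 * p 0 * v 0 + 2 * p 1 * v 1) / N p) := by
  have h := (hasFDerivAt_coord 0 p).add
    ((((hasFDerivAt_coord 0 p).pow 2).sub ((hasFDerivAt_coord 1 p).pow 2)).mul
      (hasFDerivAt_logN hp))
  have h' : fderiv ℝ u0 p = _ := h.fderiv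
  rw [h']
  simp
  ring

lemma fderiv_u1 {p : E} (hp : p ≠ 0) (v : E) :
    fderiv ℝ u1 p v = -v 1 + (2 * v 0 * p 1 + 2 * p 0 * v 1) * log (N p)
      + (2 * p 0 * p 1) * ((2 * p 0 * v 0 + 2 * p 1 * v 1) / N p) := by
  have h := (hasFDerivAt_coord 1 p).neg.add
    ((((hasFDerivAt_coord 0 p).const_mul 2).mul (hasFDerivAt_coord 1 p)).mul
      (hasFDerivAt_logN hp))
  have h' : fderiv ℝ u1 p = _ := h.fderiv
  rw [h']
  simp
  ring

end Pool.Agent.Lib.MP_4bee3f_an
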