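import Mathlib

/-! Constant elliptic systems from quaternion and octonion multiplication. -/

namespace Pool.Agent.Lib.MP_4bee3f_an.K

/-- What is needed of a constant system. -/
def Cst {n : ℕ} (M : Fin n → Matrix (Fin n) (Fin n) ℝ) (a b c d : Fin n) : Prop :=
  (∀ ξ v : Fin n → ℝ, ∑ i, (∑ j, ∑ l, ξ j * M j i l * v l) ^ 2 = (∑ j, ξ j ^ 2) * ∑ l, v l ^ 2) ∧
    (∀ i, ∑ j, M j i j = 0) ∧ ∀ i, M a i c = -M b i d ∧ M a i d = M b i c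

/-- Quaternions. -/
def M4 : Fin 4 → Matrix (Fin 4) (Fin 4) ℝ :=
  ![!![1, 0, 0, 0; 0, 1, 0, 0; 0, 0, 1, 0; 0, 0, 0, 1],
    !![0, -1, 0, 0; 1, 0, 0, 0; 0, 0, 0, -1; 0, 0, 1, 0],
    !![0, 0, -1, 0; 0, 0, 0, 1; 1, 0, 0, 0; 0, -1, 0, 0],
    !![0, 0, 0, 1; 0, 0, 1, 0; 0, -1, 0, 0; -1, 0, 0, 0]]

/-- Octonions. -/
def M8 : Fin 8 → Matrix (Fin 8) (Fin 8) ℝ :=
  ![!![1, 0, 0, 0, 0, 0, 0, 0; 0, 1, 0, 0, 0, 0, 0, 0; 0, 0, 1, 0, 0, 0, 0, 0; 0, 0, 0, 1, 0, 0,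
      0, 0; 0, 0, 0, 0, 1, 0, 0, 0; 0, 0, 0, 0, 0, 1, 0, 0; 0, 0, 0, 0, 0, 0, 1, 0; 0, 0, 0, 0,
      0, 0, 0, 1],
    !![0, -1, 0, 0, 0, 0, 0, 0; 1, 0, 0, 0, 0, 0, 0, 0; 0, 0, 0, -1, 0, 0, 0, 0; 0, 0, 1, 0, 0,
      0, 0, 0; 0, 0, 0, 0, 0, -1, 0, 0; 0, 0, 0, 0, 1, 0, 0, 0; 0, 0, 0, 0, 0, 0, 0, 1; 0, 0, 0,
      0, 0, 0, -1, 0],
    !![0, 0, -1, 0, 0, 0, 0, 0; 0, 0, 0, 1, 0, 0, 0, 0; 1, 0, 0, 0, 0, 0, 0, 0; 0, -1, 0, 0, 0,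
      0, 0, 0; 0, 0, 0, 0, 0, 0, -1, 0; 0, 0, 0, 0, 0, 0, 0, -1; 0, 0, 0, 0, 1, 0, 0, 0; 0, 0,
      0, 0, 0, 1, 0, 0],
    !![0, 0, 0, -1, 0, 0, 0, 0; 0, 0, -1, 0, 0, 0, 0, 0; 0, 1, 0, 0, 0, 0, 0, 0; 1, 0, 0, 0, 0,
      0, 0, 0; 0, 0, 0, 0, 0, 0, 0, -1; 0, 0, 0, 0, 0, 0, 1, 0; 0, 0, 0, 0, 0, -1, 0, 0; 0, 0,
      0, 0, 1, 0, 0, 0],
    !![0, 0, 0, 0, -1, 0, 0, 0; 0, 0, 0, 0, 0, 1, 0, 0; 0, 0, 0, 0, 0, 0, 1, 0; 0, 0, 0, 0, 0,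
      0, 0, 1; 1, 0, 0, 0, 0, 0, 0, 0; 0, -1, 0, 0, 0, 0, 0, 0; 0, 0, -1, 0, 0, 0, 0, 0; 0, 0,
      0, -1, 0, 0, 0, 0],
    !![0, 0, 0, 0, 0, 1, 0, 0; 0, 0, 0, 0, 1, 0, 0, 0; 0, 0, 0, 0, 0, 0, 0, -1; 0, 0, 0, 0, 0,
      0, 1, 0; 0, -1, 0, 0, 0, 0, 0, 0; -1, 0, 0, 0, 0, 0, 0, 0; 0, 0, 0, -1, 0, 0, 0, 0; 0, 0,
      1, 0, 0, 0, 0, 0],
    !![0, 0, 0, 0, 0, 0, 1, 0; 0, 0, 0, 0, 0, 0, 0, 1; 0, 0, 0, 0, 1, 0, 0, 0; 0, 0, 0, 0, 0,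
      -1, 0, 0; 0, 0, -1, 0, 0, 0, 0, 0; 0, 0, 0, 1, 0, 0, 0, 0; -1, 0, 0, 0, 0, 0, 0, 0; 0, -1,
      0, 0, 0, 0, 0, 0],
    !![0, 0, 0, 0, 0, 0, 0, 1; 0, 0, 0, 0, 0, 0, -1, 0; 0, 0, 0, 0, 0, 1, 0, 0; 0, 0, 0, 0, 1,
      0, 0, 0; 0, 0, 0, -1, 0, 0, 0, 0; 0, 0, -1, 0, 0, 0, 0, 0; 0, 1, 0, 0, 0, 0, 0, 0; -1, 0,
      0, 0, 0, 0, 0, 0]]

theorem cst4 : Cst M4 0 1 2 3 := by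
  refine ⟨fun ξ v => ?_, fun i => ?_, fun i => ?_⟩
  · simp [Fin.sum_univ_four, M4]
    ring
  · fin_cases i <;> simp [Fin.sum_univ_four, M4]
  · fin_cases i <;> simp [M4]

theorem cst8 : Cst M8 0 1 2 3 := by
  refine ⟨fun ξ v => ?_, fun i => ?_, fun i => ?_⟩
  · simp [Fin.sum_univ_eight, M8]
    ring
  · fin_cases i <;> simp [Fin.sum_univ_eight, M8]
  · fin_cases i <;> simp [M8]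

end Pool.Agent.Lib.MP_4bee3f_an.K
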