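import Pool.Agent.Lib.MP_4bee3f_an.NotLip
import Pool.Agent.Lib.MP_4bee3f_an.Cst

/-! The examples. -/

namespace Pool.Agent.Lib.MP_4bee3f_an.K

open Filter Topology Complex Metric Set
open scoped ComplexConjugate

variable {n : ℕ}

/-- The conclusion, with the extra property `X`. -/
def Concl (n k : ℕ) (X : Set (E n) → (Fin n → E n → Matrix (Fin n) (Fin n) ℝ) →
    (E n → Matrix (Fin n) (Fin n) ℝ) → (Fin n → E n → ℝ) → Prop) : Prop :=
  ∃ (Ω : Set (E n)) (A : Fin n → E n → Matrix (Fin n) (Fin n) ℝ)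
    (B : E n → Matrix (Fin n) (Fin n) ℝ) (u : Fin n → E n → ℝ),
    IsOpen Ω ∧ IsConnected Ω ∧
    (∀ x ∈ Ω, ∀ ξ : Fin n → ℝ, ξ ≠ 0 → (∑ j, ξ j • A j x).det ≠ 0) ∧
    (∀ i, ContDiffOn ℝ (k + 1) (u i) Ω) ∧
    (∀ x ∈ Ω, ∀ i, ∑ j, ∑ l, A j x i l * pd (u l) j x + ∑ l, B x i l * u l x = 0) ∧
    (∀ x ∈ Ω, jac u x ≠ 0) ∧
    (∀ j i l, ContDiffOn ℝ (k + 1) (fun x => A j x i l) Ω ∧ CLip k (fun x => A j x i l) Ω) ∧
    (∀ i l, ContDiffOn ℝ (k + 1) (fun x => B x i l) Ω ∧ CLip k (fun x => B x i l) Ω) ∧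
    (ContDiffOn ℝ (k + 1) (jac u) Ω ∧ CLip k (jac u) Ω) ∧
    X Ω A B u ∧
    ∃ i, ¬ CLip (k + 1) (u i) Ω ∧ ¬ ContDiffOn ℝ (k + 2) (u i) Ω

/-- The complex coordinate `x a + i x b`. -/
noncomputable def pr (a b : Fin n) : E n →L[ℝ] ℂ :=
  ofRealCLM.comp (EuclideanSpace.proj a) + I • ofRealCLM.comp (EuclideanSpace.proj b)

lemma pr_single (a b j : Fin n) : pr a b (EuclideanSpace.single j 1) =
    (if a = j then 1 else 0) + (if b = j then I else 0) := by
  simp only [pr, add_apply, smul_apply, ContinuousLinearMap.comp_apply, ofRealCLM_apply,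
    EuclideanSpace.coe_proj, PiLp.single_apply, smul_eq_mul]
  split_ifs <;> simp

/-- The singular function and its two derivatives. -/
noncomputable def g (a b : Fin n) (k : ℕ) (x : E n) : ℂ := m ((k + 1 : ℕ) + 1) 0 1 0 (pr a b x)
noncomputable def gP (a b : Fin n) (k : ℕ) (x : E n) : ℂ := mP ((k + 1 : ℕ) + 1) 0 1 0 (pr a b x)
noncomputable def gQ (a b : Fin n) (k : ℕ) (x : E n) : ℂ := mQ ((k + 1 : ℕ) + 1) 0 1 0 (pr a b x)

lemma gQ_eq (a b : Fin n) (k : ℕ) : gQ a b k = fun x => m ((k + 1 : ℕ) + 1) (-1) 0 1 (pr a b x) := by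
  ext x
  simp [gQ, mQ]

lemma okQ (k : ℕ) : Ok (k + 1) ((k + 1 : ℕ) + 1) (-1) 1 := by unfold Ok; omega
lemma okg (k : ℕ) : Ok (k + 1) ((k + 1 : ℕ) + 1) 0 0 := by unfold Ok; omega

lemma cd_g (a b : Fin n) (k : ℕ) : ContDiffOn ℝ (k + 1 : ℕ) (g a b k) {x | ‖pr a b x‖ < 1} :=
  cd_pi _ 1 (okg k)

lemma cd_Q (a b : Fin n) (k : ℕ) : ContDiffOn ℝ (k + 1 : ℕ) (gQ a b k) {x | ‖pr a b x‖ < 1} := by
  rw [gQ_eq]
  exact cd_pi _ 0 (okQ k)

lemma g_zero (a b : Fin n) (k : ℕ) : g a b k 0 = 0 := by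
  rw [g, map_zero, m_zero (okg k)]

lemma Q_zero (a b : Fin n) (k : ℕ) : gQ a b k 0 = 0 := by
  rw [gQ_eq]
  simp only [map_zero, m_zero (okQ k)]

/-- The squared modulus of the `z`-derivative is smoother than the derivative itself. -/
lemma cd_P (a b : Fin n) (k : ℕ) : ContDiffOn ℝ (k + 1 : ℕ)
    (fun x => (gP a b k x).re ^ 2 + (gP a b k x).im ^ 2) {x | ‖pr a b x‖ < 1} ∧ gP a b k 0 = 0 := by
  have o : ∀ t, Ok (k + 1) (k + 1 : ℕ) (k + 1 : ℕ) t := fun t => by unfold Ok; omega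
  have e : ∀ x, gP a b k x = (pr a b x) ^ ((k + 1 : ℕ) : ℤ) *
      ((k + 2) * (ll (pr a b x) : ℂ) + (L (pr a b x) : ℂ)⁻¹) := fun x => by
    simp only [gP, mP, m, add_sub_cancel_right, zpow_zero]
    push_cast
    ring
  refine ⟨(cd_re (((contDiffOn_const (c := ((k : ℂ) + 2) ^ 2)).mul (cd_pi (pr a b) 2 (o 0))).add
    (((contDiffOn_const (c := 2 * ((k : ℂ) + 2))).mul (cd_pi (pr a b) 1 (o 1))).add
      (cd_pi (pr a b) 0 (o 2))))).congr fun x _ => ?_, ?_⟩
  · have e2 : (gP a b k x).re ^ 2 + (gP a b k x).im ^ 2 = (gP a b k x * conj (gP a b k x)).re := by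
      simp [sq]
    rw [e2]
    congr 1
    rw [e]
    simp only [map_mul, map_add, map_zpow₀, map_natCast, map_ofNat, conj_ofReal, map_inv₀, m]
    ring
  · rw [e, map_zero, zero_zpow _ (by omega), zero_mul]

lemma pd_g (a b : Fin n) (k : ℕ) (T : ℂ →L[ℝ] ℝ) (s t : ℝ) (l : Fin n) {x : E n}
    (hx : ‖pr a b x‖ < 1) (j : Fin n) :
    pd (fun x => T (g a b k x) + (s + t * x l)) j x =
      T (D (gP a b k x) (gQ a b k x) (pr a b (EuclideanSpace.single j 1))) +
        if l = j then t else 0 := by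
  have h := (T.hasFDerivAt.comp x (hasD_pi (pr a b) 1 (okg k) hx)).add
    (((EuclideanSpace.proj l : E n →L[ℝ] ℝ).hasFDerivAt.const_mul t).const_add s)
  have h2 : fderiv ℝ (fun x => T (g a b k x) + (s + t * x l)) x = _ := h.fderiv
  rw [pd, h2]
  simp only [add_apply, smul_apply, ContinuousLinearMap.comp_apply, EuclideanSpace.coe_proj,
    PiLp.single_apply, smul_eq_mul, gP, gQ]
  split_ifs <;> simp

lemma cd_u (a b : Fin n) (k : ℕ) (T : ℂ →L[ℝ] ℝ) (s t : ℝ) (l : Fin n) :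
    ContDiffOn ℝ (k + 1 : ℕ) (fun x => T (g a b k x) + (s + t * x l)) {x | ‖pr a b x‖ < 1} :=
  (T.contDiff.comp_contDiffOn (cd_g a b k)).add (contDiffOn_const.add (contDiffOn_const.mul
    (EuclideanSpace.proj l : E n →L[ℝ] ℝ).contDiff.contDiffOn))

lemma not_u {a b : Fin n} (hab : a ≠ b) (k : ℕ) (s t : ℝ) (l : Fin n) :
    ¬ P (k + 1) fun x => reCLM (g a b k x) + (s + t * x l) := by
  have := notP (pr a b) (EuclideanSpace.single a 1) (by simp [pr_single, hab.symm]) (k + 1) 1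
    (fun x => s + t * x l) one_ne_zero (contDiffAt_const.add (contDiffAt_const.mul
      (EuclideanSpace.proj l : E n →L[ℝ] ℝ).contDiff.contDiffAt))
  simpa only [one_mul, g, reCLM_apply] using this

theorem big (k : ℕ) {a b c d : Fin n} (hab : a ≠ b) (hcd : c ≠ d) (hac : a < c) (had : a < d)
    (hbc : b < c) (hbd : b < d) {M : Fin n → Matrix (Fin n) (Fin n) ℝ} (hM : Cst M a b c d) :
    Concl n k fun Ω _ B u => ∀ x ∈ Ω, B x = 0 ∧ jac u x = 1 := by
  obtain ⟨h1, h2, h3⟩ := hM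
  set T : Fin n → ℂ →L[ℝ] ℝ := fun l => if l = c then reCLM else if l = d then imCLM else 0 with hT
  set u : Fin n → E n → ℝ := fun l x => T l (g a b k x) + (0 + 1 * x l) with hu
  set r : Fin n → E n → ℝ := fun i x =>
    2 * M a i c * (gQ a b k x).re + 2 * M a i d * (gQ a b k x).im with hr
  have cr : ∀ i, ContDiffOn ℝ (k + 1 : ℕ) (r i) {x | ‖pr a b x‖ < 1} := fun i =>
    (contDiffOn_const.mul (cd_re (cd_Q a b k))).add (contDiffOn_const.mul (cd_im (cd_Q a b k)))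
  have small : ∀ᶠ x in 𝓝 (0 : E n), ∑ i, r i x ^ 2 < 1 := by
    have : ContinuousAt (fun x => ∑ i, r i x ^ 2) 0 :=
      tendsto_finsetSum _ fun i _ => (((cr i).contDiffAt (near _)).continuousAt.pow 2)
    exact this.eventually_lt_const (by simp [hr, Q_zero])
  obtain ⟨ρ, hρ, hb⟩ := Metric.mem_nhds_iff.1 ((near (pr a b)).and small)
  have hW : ball (0 : E n) ρ ⊆ {x | ‖pr a b x‖ < 1} := fun x hx => (hb hx).1
  have hTa : T a = 0 := by simp [hT, hac.ne, had.ne]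
  have hJ : ∀ x ∈ ball (0 : E n) ρ, jac u x = 1 := fun x hx => by
    have z : ∀ l j, l ≤ j → T l (D (gP a b k x) (gQ a b k x)
        (pr a b (EuclideanSpace.single j 1))) = 0 := fun l j hl => by
      by_cases e1 : l = c
      · simp [pr_single, (hac.trans_le (e1 ▸ hl)).ne, (hbc.trans_le (e1 ▸ hl)).ne]
      · by_cases e2 : l = d
        · simp [pr_single, (had.trans_le (e2 ▸ hl)).ne, (hbd.trans_le (e2 ▸ hl)).ne]
        · simp [hT, e1, e2]
    rw [jac, Matrix.det_of_isLowerTriangular]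
    · refine Finset.prod_eq_one fun l _ => ?_
      rw [Matrix.of_apply, hu, pd_g a b k _ _ _ _ (hW hx), z l l le_rfl]
      simp
    · intro l j hl
      have hl' : l < j := hl
      rw [Matrix.of_apply, hu, pd_g a b k _ _ _ _ (hW hx), z l j hl'.le]
      simp [hl'.ne]
  refine ⟨ball 0 ρ, fun j x => Matrix.of fun i l => M j i l - if j = a ∧ l = a then r i x else 0,
    fun _ => 0, u, isOpen_ball, isConnected_ball hρ, fun x hx ξ hξ hd => ?_,
    fun i => by exact_mod_cast (cd_u a b k _ _ _ _).mono hW, fun x hx i => ?_,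
    fun x hx => by rw [hJ x hx]; exact one_ne_zero, fun j i l => both isOpen_ball ?_,
    fun i l => both isOpen_ball contDiffOn_const,
    both isOpen_ball (contDiffOn_const.congr hJ), fun x hx => ⟨rfl, hJ x hx⟩,
    c, neither isOpen_ball (mem_ball_self hρ) ?_⟩
  · obtain ⟨v, hv, h0⟩ := Matrix.exists_mulVec_eq_zero_iff.2 hd
    have e : ∀ i, ∑ j, ∑ l, ξ j * M j i l * v l = ξ a * v a * r i x := fun i => by
      have := congrFun h0 i
      simp only [Matrix.mulVec, dotProduct, Matrix.sum_apply, Matrix.smul_apply, Matrix.of_apply,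
        smul_eq_mul, Finset.sum_mul, mul_sub, sub_mul, Finset.sum_sub_distrib, Pi.zero_apply,
        ite_and, mul_ite, ite_mul, mul_zero, zero_mul, Finset.sum_ite_eq', Finset.mem_univ,
        if_true] at this
      rw [Finset.sum_comm]
      linarith
    have e2 := h1 ξ v
    simp only [e, mul_pow, ← Finset.mul_sum] at e2
    have p1 : ξ a ^ 2 ≤ ∑ j, ξ j ^ 2 :=
      Finset.single_le_sum (f := fun j => ξ j ^ 2) (fun _ _ => sq_nonneg _) (Finset.mem_univ a)
    have p2 : v a ^ 2 ≤ ∑ j, v j ^ 2 :=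
      Finset.single_le_sum (f := fun j => v j ^ 2) (fun _ _ => sq_nonneg _) (Finset.mem_univ a)
    have pos : ∀ w : Fin n → ℝ, w ≠ 0 → 0 < ∑ j, w j ^ 2 := fun w hw => by
      obtain ⟨j, hj⟩ := Function.ne_iff.1 hw
      exact Finset.sum_pos' (fun _ _ => sq_nonneg _) ⟨j, Finset.mem_univ j, sq_pos_of_ne_zero hj⟩
    have p3 := mul_le_mul p1 p2 (sq_nonneg _) (pos ξ hξ).le
    have p4 := mul_pos (pos ξ hξ) (pos v hv)
    have p5 : 0 ≤ ∑ i, r i x ^ 2 := Finset.sum_nonneg fun _ _ => sq_nonneg _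
    nlinarith [(hb hx).2]
  · have e : ∀ j, ∑ l, M j i l * T l (D (gP a b k x) (gQ a b k x)
        (pr a b (EuclideanSpace.single j 1))) =
        M j i c * (D (gP a b k x) (gQ a b k x) (pr a b (EuclideanSpace.single j 1))).re +
        M j i d * (D (gP a b k x) (gQ a b k x) (pr a b (EuclideanSpace.single j 1))).im :=
      fun j => by
      rw [Fintype.sum_eq_add c d hcd fun l hl => by simp [hT, hl.1, hl.2]]
      simp only [hT, if_true, hcd.symm, if_false, reCLM_apply, imCLM_apply]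
    simp only [hu, pd_g a b k _ _ _ _ (hW hx), Matrix.of_apply, Matrix.zero_apply, zero_mul,
      Finset.sum_const_zero, add_zero, sub_mul, Finset.sum_sub_distrib, ite_and, ite_mul,
      Finset.sum_ite_irrel, Finset.sum_ite_eq', Finset.mem_univ, if_true, hTa]
    simp only [mul_add, Finset.sum_add_distrib, e, mul_ite, mul_one, mul_zero, Finset.sum_ite_eq',
      Finset.mem_univ, if_true, h2, zero_apply, zero_add, add_zero]
    rw [← Finset.sum_add_distrib,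
      Fintype.sum_eq_add a b hab fun j hj => by simp [pr_single, hj.1.symm, hj.2.symm]]
    simp [pr_single, hab, hab.symm, hr, (h3 i).1, (h3 i).2]
    ring
  · simp only [Matrix.of_apply]
    split_ifs
    · exact contDiffOn_const.sub ((cr i).mono hW)
    · exact contDiffOn_const
  · simpa only [hu, hT, if_true] using not_u hab k 0 1 c

theorem two (k : ℕ) : Concl 2 k fun _ A _ _ => ∀ x, A 0 x = 1 ∧ A 1 x = !![0, -1; 1, 0] := by
  set u : Fin 2 → E 2 → ℝ := ![fun x => reCLM (g 0 1 k x) + (1 + 1 * x 0),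
    fun x => imCLM (g 0 1 k x) + (0 + (-1) * x 1)] with hu
  set c : Fin 2 → E 2 → ℝ := ![fun x => 2 + 2 * (gQ 0 1 k x).re, fun x => 2 * (gQ 0 1 k x).im]
    with hc
  set J : E 2 → ℝ := fun x => (gP 0 1 k x).re ^ 2 + (gP 0 1 k x).im ^ 2 -
    ((1 + (gQ 0 1 k x).re) ^ 2 + (gQ 0 1 k x).im ^ 2) with hJ
  have cu : ∀ i, ContDiffOn ℝ (k + 1 : ℕ) (u i) {x | ‖pr 0 1 x‖ < 1} := fun i => by
    fin_cases i <;> exact cd_u _ _ _ _ _ _ _
  have cc : ∀ i, ContDiffOn ℝ (k + 1 : ℕ) (c i) {x | ‖pr 0 1 x‖ < 1} := fun i => by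
    fin_cases i
    · exact contDiffOn_const.add (contDiffOn_const.mul (cd_re (cd_Q 0 1 k)))
    · exact contDiffOn_const.mul (cd_im (cd_Q 0 1 k))
  have cJ : ContDiffOn ℝ (k + 1 : ℕ) J {x | ‖pr 0 1 x‖ < 1} :=
    (cd_P 0 1 k).1.sub (((contDiffOn_const.add (cd_re (cd_Q 0 1 k))).pow 2).add
      ((cd_im (cd_Q 0 1 k)).pow 2))
  have n1 : ∀ᶠ x in 𝓝 (0 : E 2), u 0 x ≠ 0 :=
    ((cu 0).contDiffAt (near _)).continuousAt.eventually_ne (by simp [hu, g_zero])
  have n2 : ∀ᶠ x in 𝓝 (0 : E 2), J x ≠ 0 :=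
    (cJ.contDiffAt (near _)).continuousAt.eventually_ne (by simp [hJ, Q_zero, (cd_P 0 1 k).2])
  obtain ⟨ρ, hρ, hb⟩ := Metric.mem_nhds_iff.1 ((near (pr (0 : Fin 2) 1)).and (n1.and n2))
  have hW : ball (0 : E 2) ρ ⊆ {x | ‖pr 0 1 x‖ < 1} := fun x hx => (hb hx).1
  have p0 : ∀ x ∈ ball (0 : E 2) ρ, ∀ j, pd (u 0) j x = _ := fun x hx j =>
    pd_g 0 1 k reCLM 1 1 0 (hW hx) j
  have p1 : ∀ x ∈ ball (0 : E 2) ρ, ∀ j, pd (u 1) j x = _ := fun x hx j =>
    pd_g 0 1 k imCLM 0 (-1) 1 (hW hx) j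
  have eJ : ∀ x ∈ ball (0 : E 2) ρ, jac u x = J x := fun x hx => by
    rw [jac, Matrix.det_fin_two]
    simp only [Matrix.of_apply, p0 x hx, p1 x hx, pr_single, hJ]
    simp
    ring
  refine ⟨ball 0 ρ, fun j _ => ![1, !![0, -1; 1, 0]] j,
    fun x => Matrix.of fun i l => if l = 0 then -(c i x * (u 0 x)⁻¹) else 0, u, isOpen_ball,
    isConnected_ball hρ, fun x hx ξ hξ hd => hξ ?_,
    fun i => by exact_mod_cast (cu i).mono hW, fun x hx i => ?_,
    fun x hx => by rw [eJ x hx]; exact (hb hx).2.2, fun j i l => both isOpen_ball contDiffOn_const,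
    fun i l => both isOpen_ball ?_, both isOpen_ball ((cJ.mono hW).congr eJ), fun x => ⟨rfl, rfl⟩,
    0, neither isOpen_ball (mem_ball_self hρ) (not_u zero_ne_one k 1 1 0)⟩
  · rw [Matrix.det_fin_two] at hd
    simp [Fin.sum_univ_two, Matrix.sum_apply] at hd
    ext i
    fin_cases i
    · show ξ 0 = 0
      nlinarith [sq_nonneg (ξ 0), sq_nonneg (ξ 1)]
    · show ξ 1 = 0
      nlinarith [sq_nonneg (ξ 0), sq_nonneg (ξ 1)]
  · have h0 := (hb hx).2.1
    have e : ∑ l, (Matrix.of fun i l => if l = 0 then -(c i x * (u 0 x)⁻¹) else 0 :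
        Matrix (Fin 2) (Fin 2) ℝ) i l * u l x = -c i x := by
      simp
      field_simp
    rw [e]
    simp only [Fin.sum_univ_two, p0 x hx, p1 x hx, pr_single]
    fin_cases i
    · simp [hc]
      ring
    · simp [hc]
      ring
  · simp only [Matrix.of_apply]
    split_ifs
    · exact (((cc i).mono hW).mul (((cu 0).mono hW).inv fun x hx => (hb hx).2.1)).neg
    · exact contDiffOn_const

end Pool.Agent.Lib.MP_4bee3f_an.K
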