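import Mathlib

/-! Definitions for first-order systems in `ℝⁿ`. -/

namespace Pool.Agent.Lib.MP_4bee3f_an.K

/-- Euclidean space. -/
abbrev E (n : ℕ) : Type := EuclideanSpace ℝ (Fin n)

/-- The class `C^{k,1}` on `Ω`: of class `C^k`, with locally Lipschitz `k`-th derivative. -/
def CLip {n : ℕ} (k : ℕ) (f : E n → ℝ) (Ω : Set (E n)) : Prop :=
  ContDiffOn ℝ k f Ω ∧
    ∀ x ∈ Ω, ∃ C : NNReal, ∃ U ∈ nhds x, LipschitzOnWith C (iteratedFDeriv ℝ k f) U

/-- The derivative of `f` in the `j`-th coordinate direction. -/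
noncomputable def pd {n : ℕ} (f : E n → ℝ) (j : Fin n) (x : E n) : ℝ :=
  fderiv ℝ f x (EuclideanSpace.single j 1)

/-- The Jacobian determinant. -/
noncomputable def jac {n : ℕ} (u : Fin n → E n → ℝ) (x : E n) : ℝ :=
  (Matrix.of fun i j => pd (u i) j x).det

end Pool.Agent.Lib.MP_4bee3f_an.K
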