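import Pool.Agent.Lib.MP_4bee3f_an.Mono
import Pool.Agent.Lib.MP_4bee3f_an.KDefs

/-! `Re z^(n+1) log |log |z|^2|` is not of class `C^{n,1}` near `0`. -/

namespace Pool.Agent.Lib.MP_4bee3f_an.K

open Filter Topology Complex Metric Set
open scoped ComplexConjugate

variable {d : ℕ}

/-- Class `C^{n,1}` near `0`. -/
def P (n : ℕ) (f : E d → ℝ) : Prop :=
  ∃ C : NNReal, ∃ U ∈ 𝓝 (0 : E d), ContDiffOn ℝ n f U ∧ LipschitzOnWith C (iteratedFDeriv ℝ n f) U

lemma P.congr {n : ℕ} {f g : E d → ℝ} (h : P n f) (e : g =ᶠ[𝓝 0] f) : P n g := by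
  obtain ⟨C, U, hU, h1, h2⟩ := h
  have e2 := e.iteratedFDeriv ℝ n
  refine ⟨C, U ∩ {x | g x = f x} ∩ {x | iteratedFDeriv ℝ n g x = iteratedFDeriv ℝ n f x},
    inter_mem (inter_mem hU e) e2, (h1.mono fun x hx => hx.1.1).congr fun x hx => hx.1.2,
    fun x hx y hy => ?_⟩
  rw [hx.2, hy.2]
  exact h2 hx.1.1 hy.1.1

lemma P.step {n : ℕ} {f : E d → ℝ} (h : P (n + 1) f) (v : E d) :
    P n fun x => fderiv ℝ f x v := by
  obtain ⟨C, U, hU, h1, h2⟩ := h
  obtain ⟨V, hVU, hV, h0⟩ := _root_.mem_nhds_iff.1 hU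
  have h3 : ContDiffOn ℝ n (fderiv ℝ f) V :=
    (h1.mono hVU).fderiv_of_isOpen hV (by simp)
  set T := ContinuousLinearMap.apply ℝ ℝ v with hT
  refine ⟨‖T‖₊ * C, V, hV.mem_nhds h0, h3.clm_apply contDiffOn_const,
    LipschitzOnWith.of_dist_le_mul fun x hx y hy => ?_⟩
  have e : ∀ x ∈ V, iteratedFDeriv ℝ n (fun x => fderiv ℝ f x v) x =
      T.compContinuousMultilinearMap (iteratedFDeriv ℝ n (fderiv ℝ f) x) := fun x hx =>
    T.iteratedFDeriv_comp_left (h3.contDiffAt (hV.mem_nhds hx)) le_rfl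
  have h4 := h2.dist_le_mul x (hVU hx) y (hVU hy)
  rw [iteratedFDeriv_succ_eq_comp_right, iteratedFDeriv_succ_eq_comp_right, Function.comp_apply,
    Function.comp_apply, LinearIsometryEquiv.dist_map] at h4
  rw [e x hx, e y hy, dist_eq_norm]
  rw [dist_eq_norm] at h4
  have e2 : T.compContinuousMultilinearMap (iteratedFDeriv ℝ n (fderiv ℝ f) x) -
      T.compContinuousMultilinearMap (iteratedFDeriv ℝ n (fderiv ℝ f) y) =
      T.compContinuousMultilinearMap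
        (iteratedFDeriv ℝ n (fderiv ℝ f) x - iteratedFDeriv ℝ n (fderiv ℝ f) y) := by
    ext w
    simp
  rw [e2]
  refine (T.norm_compContinuousMultilinearMap_le _).trans ?_
  push_cast
  rw [mul_assoc]
  exact mul_le_mul_of_nonneg_left h4 (norm_nonneg _)

lemma near (π : E d →L[ℝ] ℂ) : ∀ᶠ x in 𝓝 (0 : E d), ‖π x‖ < 1 :=
  (π.continuous.norm.tendsto 0).eventually_lt_const (by simp)

lemma cd_pi (π : E d →L[ℝ] ℂ) {N : ℕ} {i j : ℤ} (a : ℕ) {b : ℕ} (h : Ok N i j b) :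
    ContDiffOn ℝ N (fun x => m i j a b (π x)) {x | ‖π x‖ < 1} :=
  (cd_m N i j a b h).comp π.contDiff.contDiffOn fun _ hx => mem_ball_zero_iff.2 hx

lemma cd_re {N : ℕ} {f : E d → ℂ} {W : Set (E d)} (h : ContDiffOn ℝ N f W) :
    ContDiffOn ℝ N (fun x => (f x).re) W := reCLM.contDiff.comp_contDiffOn h

lemma cd_im {N : ℕ} {f : E d → ℂ} {W : Set (E d)} (h : ContDiffOn ℝ N f W) :
    ContDiffOn ℝ N (fun x => (f x).im) W := imCLM.contDiff.comp_contDiffOn h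

lemma hasD_pi (π : E d →L[ℝ] ℂ) {N : ℕ} {i j : ℤ} (a : ℕ) {b : ℕ} (h : Ok (N + 1) i j b)
    {x : E d} (hx : ‖π x‖ < 1) : HasFDerivAt (fun x => m i j a b (π x))
      ((D (mP i j a b (π x)) (mQ i j a b (π x))).comp π) x :=
  (hasD_m' a h hx).comp x π.hasFDerivAt

theorem notP (π : E d →L[ℝ] ℂ) (e : E d) (he : π e = 1) (n : ℕ) : ∀ (c : ℝ) (h : E d → ℝ), c ≠ 0 →
    ContDiffAt ℝ (n + 1 : ℕ) h 0 → ¬ P n fun x => c * (m (n + 1) 0 1 0 (π x)).re + h x := by
  induction n with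
  | zero =>
    rintro c h hc hh ⟨C, U, hU, -, h2⟩
    obtain ⟨K, V, hV, h3⟩ := (hh.of_le (m := 1) (by simp)).exists_lipschitzOnWith
    have t0 : Tendsto (fun t : ℝ => t • e) (𝓝[>] 0) (𝓝 0) := by
      have : Continuous fun t : ℝ => t • e := by fun_prop
      simpa using (this.tendsto 0).mono_left nhdsWithin_le_nhds
    have t1 : Tendsto (fun t : ℝ => (t : ℂ)) (𝓝[>] 0) (𝓝[≠] 0) := by
      refine tendsto_nhdsWithin_iff.2 ⟨?_, ?_⟩
      · simpa using (continuous_ofReal.tendsto 0).mono_left nhdsWithin_le_nhds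
      · filter_upwards [self_mem_nhdsWithin] with t ht
        simpa using (ne_of_gt ht)
    obtain ⟨t, ⟨⟨h4, h5⟩, h6⟩, h7⟩ := ((((t0.eventually hU).and (t0.eventually hV)).and
      ((tend_ll.comp t1).eventually_gt_atTop ((C + K) * ‖e‖ / |c|))).and
      (self_mem_nhdsWithin (s := Ioi (0 : ℝ)))).exists
    have ht : 0 < t := h7
    have a1 := h2.dist_le_mul _ h4 _ (mem_of_mem_nhds hU)
    have a2 := h3.dist_le_mul _ h5 _ (mem_of_mem_nhds hV)
    rw [iteratedFDeriv_zero_eq_comp, Function.comp_apply, Function.comp_apply,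
      LinearIsometryEquiv.dist_map] at a1
    have z0 : m ((0 : ℕ) + 1) 0 1 0 0 = 0 := by simp [m]
    have z1 : (m ((0 : ℕ) + 1) 0 1 0 (t : ℂ)).re = t * ll t := by simp [m]
    have z2 : π (t • e) = t := by simp [he]
    rw [map_zero, z0, z2, z1] at a1
    rw [dist_zero_right, norm_smul, Real.norm_of_nonneg ht.le, Real.dist_eq] at a1 a2
    have hc' : 0 < |c| := abs_pos.2 hc
    rw [Function.comp_apply, div_lt_iff₀ hc'] at h6
    have a3 : |c * (t * ll t)| ≤ (C + K) * (t * ‖e‖) := by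
      have := abs_sub (c * (t * ll t) + h (t • e) - (c * (0 : ℂ).re + h 0)) (h (t • e) - h 0)
      have e3 : c * (t * ll t) + h (t • e) - (c * (0 : ℂ).re + h 0) - (h (t • e) - h 0) =
          c * (t * ll t) := by simp
      rw [e3] at this
      linarith
    rw [abs_mul, abs_mul, abs_of_pos ht] at a3
    nlinarith [mul_lt_mul_of_pos_left h6 ht, mul_le_mul_of_nonneg_left (le_abs_self (ll t))
      (mul_pos hc' ht).le]
  | succ n ih =>
    intro c h hc hh hP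
    have o1 : Ok (n + 1) (n + 1) 0 1 := by unfold Ok; omega
    have o2 : Ok (n + 1) (n + 2) (-1) 1 := by unfold Ok; omega
    have o3 : Ok (0 + 1) ((n + 1 : ℕ) + 1) 0 0 := by unfold Ok; omega
    refine ih (c * (n + 2)) (fun x => c * (m (n + 1) 0 0 1 (π x) + m (n + 2) (-1) 0 1 (π x)).re +
      fderiv ℝ h x e) (by positivity) ?_ ((hP.step e).congr ?_)
    · exact (contDiffAt_const.mul ((cd_re ((cd_pi π 0 o1).add (cd_pi π 0 o2))).contDiffAt
        (near π))).add ((hh.fderiv_right (by simp)).clm_apply contDiffAt_const)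
    · filter_upwards [near π, hh.eventually (by simp)] with x hx h1
      have h2 := ((reCLM.hasFDerivAt.comp x (hasD_pi π 1 o3 hx)).const_mul c).add
        (h1.differentiableAt (by simp)).hasFDerivAt
      have h3 : fderiv ℝ (fun x => c * (m ((n + 1 : ℕ) + 1) 0 1 0 (π x)).re + h x) x = _ :=
        h2.fderiv
      rw [h3]
      have e1 : ((n + 1 : ℕ) : ℤ) + 1 - 1 = n + 1 := by omega
      have e2 : ((n + 1 : ℕ) : ℤ) + 1 = n + 2 := by omega
      simp only [add_apply, smul_apply, ContinuousLinearMap.comp_apply, D_apply, he, mP, mQ, e1]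
      rw [e2]
      simp
      ring

lemma clip_of {k : ℕ} {f : E d → ℝ} {Ω : Set (E d)} (hΩ : IsOpen Ω)
    (h : ContDiffOn ℝ (k + 1 : ℕ) f Ω) : CLip k f Ω :=
  ⟨h.of_le (by simp), fun _ hx =>
    ((h.contDiffAt (hΩ.mem_nhds hx)).iteratedFDeriv_right (m := 1) (i := k)
      (by simp [add_comm])).exists_lipschitzOnWith⟩

lemma both {k : ℕ} {f : E d → ℝ} {Ω : Set (E d)} (hΩ : IsOpen Ω)
    (h : ContDiffOn ℝ (k + 1 : ℕ) f Ω) : ContDiffOn ℝ (k + 1) f Ω ∧ CLip k f Ω :=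
  ⟨by exact_mod_cast h, clip_of hΩ h⟩

lemma neither {k : ℕ} {f : E d → ℝ} {Ω : Set (E d)} (hΩ : IsOpen Ω) (h0 : 0 ∈ Ω)
    (h : ¬ P (k + 1) f) : ¬ CLip (k + 1) f Ω ∧ ¬ ContDiffOn ℝ (k + 2) f Ω := by
  have h1 : ¬ CLip (k + 1) f Ω := fun ⟨h1, h2⟩ => by
    obtain ⟨C, U, hU, h3⟩ := h2 0 h0
    exact h ⟨C, U ∩ Ω, inter_mem hU (hΩ.mem_nhds h0), h1.mono inter_subset_right,
      h3.mono inter_subset_left⟩
  exact ⟨h1, fun h2 => h1 (clip_of hΩ (by exact_mod_cast h2))⟩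

end Pool.Agent.Lib.MP_4bee3f_an.K
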