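import Mathlib

/-! Monomials `z^i conj(z)^j (log |log |z|^2|)^a (log |z|^2)^(-b)` and their smoothness at `0`. -/

namespace Pool.Agent.Lib.MP_4bee3f_an.K

open Filter Topology Complex Metric
open scoped ComplexConjugate

set_option linter.unnecessarySeqFocus false

/-- `log |z|^2`. -/
noncomputable def L (z : ℂ) : ℝ := Real.log (‖z‖ ^ 2)

/-- `log |log |z|^2|`. -/
noncomputable def ll (z : ℂ) : ℝ := Real.log (L z)

/-- The monomials. -/
noncomputable def m (i j : ℤ) (a b : ℕ) (z : ℂ) : ℂ :=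
  z ^ i * conj z ^ j * (ll z : ℂ) ^ a * ((L z : ℂ)⁻¹) ^ b

/-- The degree condition. -/
def Ok (N : ℕ) (i j : ℤ) (b : ℕ) : Prop := (N : ℤ) ≤ i + j ∧ ((N : ℤ) < i + j ∨ 0 < b)

lemma L_neg {z : ℂ} (h0 : z ≠ 0) (h1 : ‖z‖ < 1) : L z < 0 :=
  Real.log_neg (by positivity) (by nlinarith [norm_nonneg z])

lemma m_zero {N : ℕ} {i j : ℤ} {a b : ℕ} (h : Ok N i j b) : m i j a b 0 = 0 := by
  rcases h.2 with h1 | h1
  · by_cases hi : i = 0
    · have hj : j ≠ 0 := by omega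
      simp [m, zero_zpow j hj]
    · simp [m, zero_zpow i hi]
  · simp [m, L, h1.ne']

lemma tend_L : Tendsto L (𝓝[≠] 0) atBot := by
  refine Real.tendsto_log_nhdsNE_zero.comp (tendsto_nhdsWithin_iff.2 ⟨?_, ?_⟩)
  · have : Tendsto (fun z : ℂ => ‖z‖ ^ 2) (𝓝 0) (𝓝 (‖(0 : ℂ)‖ ^ 2)) :=
      (continuous_norm.pow 2).tendsto 0
    simpa using this.mono_left nhdsWithin_le_nhds
  · filter_upwards [self_mem_nhdsWithin] with z hz
    have : z ≠ 0 := hz
    simp [this]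

lemma tend_abs : Tendsto (fun z => |L z|) (𝓝[≠] 0) atTop := tendsto_abs_atBot_atTop.comp tend_L

lemma tend_ll : Tendsto ll (𝓝[≠] 0) atTop :=
  (Real.tendsto_log_atTop.comp tend_abs).congr fun z => by simp [ll]

lemma tend_inv : Tendsto (fun z => |L z|⁻¹) (𝓝[≠] 0) (𝓝 0) := tendsto_inv_atTop_zero.comp tend_abs

lemma tend_q (a : ℕ) : Tendsto (fun z => |ll z| ^ a * |L z|⁻¹) (𝓝[≠] 0) (𝓝 0) := by
  have h := ((Real.isLittleO_pow_log_id_atTop (n := a)).tendsto_div_nhds_zero.comp tend_abs).abs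
  simp only [abs_zero] at h
  refine h.congr fun z => ?_
  simp [ll, div_eq_mul_inv, abs_mul, abs_inv]

lemma tend_norm : Tendsto (fun z : ℂ => ‖z‖) (𝓝[≠] 0) (𝓝 0) := by
  simpa using (continuous_norm.tendsto (0 : ℂ)).mono_left nhdsWithin_le_nhds

lemma tend_p : Tendsto (fun z : ℂ => ‖z‖ * |L z|) (𝓝[≠] 0) (𝓝 0) := by
  have h := (((Real.continuous_mul_log.tendsto 0).comp tend_norm).abs).const_mul 2
  simp only [zero_mul, abs_zero, mul_zero] at h
  refine h.congr fun z => ?_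
  simp only [Function.comp, L, Real.log_pow, abs_mul, abs_norm, Nat.cast_ofNat, Nat.abs_ofNat]
  ring

lemma norm_m (i j : ℤ) (a b : ℕ) {z : ℂ} (hz : z ≠ 0) :
    ‖m i j a b z‖ = ‖z‖ ^ (i + j) * |ll z| ^ a * |L z|⁻¹ ^ b := by
  have : ‖z‖ ≠ 0 := norm_ne_zero_iff.2 hz
  simp [m, norm_zpow, zpow_add₀ this]

lemma tend_m {i j : ℤ} (a : ℕ) {b : ℕ} (h : Ok 0 i j b) :
    Tendsto (m i j a b) (𝓝[≠] 0) (𝓝 0) := by
  rw [tendsto_zero_iff_norm_tendsto_zero]
  obtain ⟨d, hd⟩ := Int.eq_ofNat_of_zero_le (show 0 ≤ i + j by simpa using h.1)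
  have hL : ∀ᶠ z in 𝓝[≠] (0 : ℂ), z ≠ 0 ∧ |L z| ≠ 0 := by
    filter_upwards [self_mem_nhdsWithin, tend_abs.eventually_gt_atTop 0] with z h1 h2
    exact ⟨h1, h2.ne'⟩
  rcases h.2 with h1 | h1
  · obtain ⟨e, rfl⟩ : ∃ e, d = e + 1 := ⟨d - 1, by omega⟩
    have h2 := (((tend_q a).mul tend_p).mul (tend_norm.pow e)).mul (tend_inv.pow b)
    simp only [zero_mul] at h2
    refine h2.congr' ?_
    filter_upwards [hL] with z hz
    rw [norm_m _ _ _ _ hz.1, hd, zpow_natCast]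
    have := hz.2
    field_simp
    ring
  · obtain ⟨e, rfl⟩ : ∃ e, b = e + 1 := ⟨b - 1, by omega⟩
    have h2 := ((tend_q a).mul (tend_norm.pow d)).mul (tend_inv.pow e)
    simp only [zero_mul] at h2
    refine h2.congr' ?_
    filter_upwards [hL] with z hz
    rw [norm_m _ _ _ _ hz.1, hd, zpow_natCast]
    ring

/-- The real linear map `v ↦ P v + Q conj v`. -/
noncomputable def D (P Q : ℂ) : ℂ →L[ℝ] ℂ :=
  P • ContinuousLinearMap.id ℝ ℂ + Q • (conjCLE : ℂ →L[ℝ] ℂ)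

@[simp] lemma D_apply (P Q v : ℂ) : D P Q v = P * v + Q * conj v := by simp [D]

/-- The `z`-derivative of a monomial. -/
noncomputable def mP (i j : ℤ) (a b : ℕ) (z : ℂ) : ℂ :=
  i * m (i - 1) j a b z + a * m (i - 1) j (a - 1) (b + 1) z - b * m (i - 1) j a (b + 1) z

/-- The `conj z`-derivative of a monomial. -/
noncomputable def mQ (i j : ℤ) (a b : ℕ) (z : ℂ) : ℂ :=
  j * m i (j - 1) a b z + a * m i (j - 1) (a - 1) (b + 1) z - b * m i (j - 1) a (b + 1) z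

lemma D_mul {f g : ℂ → ℂ} {P Q P' Q' z : ℂ} (hf : HasFDerivAt f (D P Q) z)
    (hg : HasFDerivAt g (D P' Q') z) :
    HasFDerivAt (fun w => f w * g w) (D (f z * P' + P * g z) (f z * Q' + Q * g z)) z := by
  refine (hf.mul hg).congr_fderiv ?_
  ext v <;> simp <;> ring

lemma D_comp {f : ℂ → ℂ} {P Q z c : ℂ} {φ : ℂ → ℂ} (hf : HasFDerivAt f (D P Q) z)
    (hφ : HasDerivAt φ c (f z)) : HasFDerivAt (fun w => φ (f w)) (D (c * P) (c * Q)) z := by
  refine ((hφ.hasFDerivAt.restrictScalars ℝ).comp z hf).congr_fderiv ?_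
  ext v <;> simp <;> ring

lemma D_log {f : ℂ → ℝ} {P Q z : ℂ} (hf : HasFDerivAt (fun w => (f w : ℂ)) (D P Q) z)
    (h0 : f z ≠ 0) : HasFDerivAt (fun w => (Real.log (f w) : ℂ))
      (D ((f z : ℂ)⁻¹ * P) ((f z : ℂ)⁻¹ * Q)) z := by
  have h1 : HasFDerivAt f (reCLM.comp (D P Q)) z := by
    simpa [Function.comp_def] using reCLM.hasFDerivAt.comp z hf
  have h2 : (ofRealCLM.comp (reCLM.comp (D P Q))) = D P Q :=
    (ofRealCLM.hasFDerivAt.comp z h1).unique hf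
  refine (ofRealCLM.hasFDerivAt.comp z (h1.log h0)).congr_fderiv ?_
  refine ContinuousLinearMap.ext fun v => ?_
  have h3 := congrArg (fun T : ℂ →L[ℝ] ℂ => T v) h2
  simp only [ContinuousLinearMap.comp_apply, ofRealCLM_apply, D_apply] at h3
  simp only [ContinuousLinearMap.comp_apply, ofRealCLM_apply, D_apply, smul_apply,
    smul_eq_mul, ofReal_mul, ofReal_inv, h3]
  ring

lemma D_id (z : ℂ) : HasFDerivAt (fun w : ℂ => w) (D 1 0) z := by
  refine (hasFDerivAt_id z).congr_fderiv ?_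
  ext <;> simp

lemma D_conj (z : ℂ) : HasFDerivAt (fun w : ℂ => conj w) (D 0 1) z := by
  refine (conjCLE.hasFDerivAt (x := z)).congr_fderiv ?_
  ext <;> simp

lemma hasD_m (i j : ℤ) (a b : ℕ) {z : ℂ} (h0 : z ≠ 0) (h1 : ‖z‖ < 1) :
    HasFDerivAt (m i j a b) (D (mP i j a b z) (mQ i j a b z)) z := by
  have hc : conj z ≠ 0 := by simpa using h0
  have hL : L z ≠ 0 := (L_neg h0 h1).ne
  have hL' : (L z : ℂ) ≠ 0 := by exact_mod_cast hL
  have e : ∀ w : ℂ, ((‖w‖ ^ 2 : ℝ) : ℂ) = w * conj w := fun w => by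
    rw [mul_conj, normSq_eq_norm_sq]
  have n2 : HasFDerivAt (fun w : ℂ => ((‖w‖ ^ 2 : ℝ) : ℂ)) (D (conj z) z) z := by
    simp only [e]
    simpa using D_mul (D_id z) (D_conj z)
  have dL : HasFDerivAt (fun w => (L w : ℂ)) (D z⁻¹ (conj z)⁻¹) z := by
    have := D_log n2 (by positivity)
    rw [e] at this
    refine HasFDerivAt.congr_fderiv this ?_
    congr 1 <;> field_simp
  have dl : HasFDerivAt (fun w => (ll w : ℂ)) _ z := D_log dL hL
  have p1 := D_comp (D_id z) (hasDerivAt_zpow i z (Or.inl h0))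
  have p2 := D_comp (D_conj z) (hasDerivAt_zpow j (conj z) (Or.inl hc))
  have p3 := D_comp dl (hasDerivAt_pow a (ll z : ℂ))
  have p4 := D_comp (D_comp dL (hasDerivAt_inv hL')) (hasDerivAt_pow b (L z : ℂ)⁻¹)
  have hb : (b : ℂ) * (L z : ℂ)⁻¹ ^ (b - 1) * (L z : ℂ)⁻¹ = b * (L z : ℂ)⁻¹ ^ b := by
    cases b with
    | zero => simp
    | succ b => simp [pow_succ, mul_assoc]
  refine HasFDerivAt.congr_fderiv (D_mul (D_mul (D_mul p1 p2) p3) p4) ?_
  congr 1
  · simp only [mP, m, zpow_sub_one₀ h0, pow_succ, pow_zero, one_mul, mul_inv]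
    linear_combination (-(z ^ i * conj z ^ j * (ll z : ℂ) ^ a * z⁻¹ * (L z : ℂ)⁻¹)) * hb
  · simp only [mQ, m, zpow_sub_one₀ hc, pow_succ, pow_zero, one_mul, mul_inv]
    linear_combination (-(z ^ i * conj z ^ j * (ll z : ℂ) ^ a * (conj z)⁻¹ * (L z : ℂ)⁻¹)) * hb

lemma Ok.l {N : ℕ} {i j : ℤ} {b : ℕ} (h : Ok (N + 1) i j b) : Ok N (i - 1) j b := by
  unfold Ok at *; omega
lemma Ok.r {N : ℕ} {i j : ℤ} {b : ℕ} (h : Ok (N + 1) i j b) : Ok N i (j - 1) b := by
  unfold Ok at *; omega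
lemma Ok.s {N : ℕ} {i j : ℤ} {b : ℕ} (h : Ok N i j b) : Ok N i j (b + 1) := by
  unfold Ok at *; omega
lemma Ok.z {N : ℕ} {i j : ℤ} {b : ℕ} (h : Ok N i j b) : Ok 0 i j b := by
  unfold Ok at *; omega

lemma hasD_m' {N : ℕ} {i j : ℤ} (a : ℕ) {b : ℕ} (h : Ok (N + 1) i j b) {z : ℂ} (h1 : ‖z‖ < 1) :
    HasFDerivAt (m i j a b) (D (mP i j a b z) (mQ i j a b z)) z := by
  by_cases h0 : z = 0
  · subst h0
    have e : D (mP i j a b 0) (mQ i j a b 0) = 0 := by
      refine ContinuousLinearMap.ext fun v => ?_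
      simp [mP, mQ, m_zero h.l, m_zero h.r, m_zero h.l.s, m_zero h.r.s]
    rw [e, hasFDerivAt_iff_isLittleO_nhds_zero]
    simp only [zero_add, m_zero h, sub_zero, zero_apply]
    have t : Tendsto (m (i - 1) j a b) (𝓝 0) (𝓝 0) := by
      have := (continuousAt_iff_punctured_nhds (f := m (i - 1) j a b) (a := 0)).2
        (by rw [m_zero h.l]; exact tend_m a h.l.z)
      simpa [ContinuousAt, m_zero h.l] using this
    refine (((Asymptotics.isLittleO_one_iff ℂ).2 t).mul_isBigO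
      (Asymptotics.isBigO_refl (fun z : ℂ => z) _)).congr (fun z => ?_) (fun z => one_mul z)
    by_cases hz : z = 0
    · simp [hz, m_zero h]
    · simp only [m, zpow_sub_one₀ hz]
      field_simp
  · exact hasD_m i j a b h0 h1

theorem cd_m (N : ℕ) : ∀ (i j : ℤ) (a b : ℕ), Ok N i j b →
    ContDiffOn ℝ N (m i j a b) (ball 0 1) := by
  induction N with
  | zero =>
    intro i j a b h
    rw [Nat.cast_zero, contDiffOn_zero]
    intro z hz
    refine ContinuousAt.continuousWithinAt ?_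
    by_cases h0 : z = 0
    · subst h0
      exact continuousAt_iff_punctured_nhds.2 (by rw [m_zero h]; exact tend_m a h)
    · exact (hasD_m i j a b h0 (mem_ball_zero_iff.1 hz)).continuousAt
  | succ N ih =>
    intro i j a b h
    rw [Nat.cast_succ, contDiffOn_succ_iff_fderiv_of_isOpen isOpen_ball]
    refine ⟨fun z hz => (hasD_m' a h (mem_ball_zero_iff.1 hz)).differentiableAt.differentiableWithinAt,
      by simp, contDiffOn_clm_apply.2 fun v => ?_⟩
    have hP : ContDiffOn ℝ N (mP i j a b) (ball 0 1) :=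
      ((contDiffOn_const.mul (ih _ _ _ _ h.l)).add (contDiffOn_const.mul (ih _ _ _ _ h.l.s))).sub
        (contDiffOn_const.mul (ih _ _ _ _ h.l.s))
    have hQ : ContDiffOn ℝ N (mQ i j a b) (ball 0 1) :=
      ((contDiffOn_const.mul (ih _ _ _ _ h.r)).add (contDiffOn_const.mul (ih _ _ _ _ h.r.s))).sub
        (contDiffOn_const.mul (ih _ _ _ _ h.r.s))
    refine ((hP.mul (contDiffOn_const (c := v))).add
      (hQ.mul (contDiffOn_const (c := conj v)))).congr fun z hz => ?_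
    rw [(hasD_m' a h (mem_ball_zero_iff.1 hz)).fderiv, D_apply]

end Pool.Agent.Lib.MP_4bee3f_an.K
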